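import Pool.Agent.P8H18.PS.Stm

/-!
# Project PS, package DEC, first part: the parametrisation of the palindromes
-/

set_option autoImplicit false

namespace Pool.Agent.P8H89.PS

open Finset Pool.Agent.P8H18.PS

/-- the weight of the `i`-th parameter -/
def wt (L i : ℕ) : ℕ := if i + 1 < L then 10 ^ (i + 1) + 10 ^ (2 * L - (i + 1)) else 10 ^ L

/-- the palindrome with first digit `a` and parameters `x` -/
def V (L a : ℕ) (x : Fin L → ℕ) : ℕ := a * (10 ^ (2 * L) + 1) + ∑ i : Fin L, x i * wt L i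

/-- the digits up to the middle -/
def Y (L a : ℕ) (x : Fin L → ℕ) (k : ℕ) : ℕ :=
  if h : 0 < k ∧ k ≤ L then x ⟨k - 1, by omega⟩ else a

lemma Y_zero (L a : ℕ) (x : Fin L → ℕ) : Y L a x 0 = a := by
  simp [Y]

lemma Y_succ (L a : ℕ) (x : Fin L → ℕ) (k : ℕ) (hk : k < L) : Y L a x (k + 1) = x ⟨k, hk⟩ := by
  unfold Y
  rw [dif_pos ⟨by omega, by omega⟩]
  congr 1

/-- the list of the digits -/
def pl (L a : ℕ) (x : Fin L → ℕ) : List ℕ :=
  List.ofFn fun j : Fin (2 * L + 1) => Y L a x (min (j : ℕ) (2 * L - j))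

lemma pl_length (L a : ℕ) (x : Fin L → ℕ) : (pl L a x).length = 2 * L + 1 := by
  simp [pl]

lemma pl_get (L a : ℕ) (x : Fin L → ℕ) (j : ℕ) (hj : j < (pl L a x).length) :
    (pl L a x)[j] = Y L a x (min j (2 * L - j)) := by
  unfold pl
  rw [List.getElem_ofFn]

lemma ofDigits_ofFn : ∀ (n : ℕ) (f : ℕ → ℕ),
    Nat.ofDigits 10 (List.ofFn fun j : Fin n => f j) = ∑ j ∈ range n, f j * 10 ^ j := by
  intro n
  induction n with
  | zero => intro f; simp
  | succ n ih =>
    intro f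
    rw [List.ofFn_succ, Nat.ofDigits_cons, Finset.sum_range_succ']
    have h := ih (fun j => f (j + 1))
    have h2 : (fun j : Fin n => f (j + 1)) = (fun i : Fin n => f ((Fin.succ i : Fin (n + 1)) : ℕ)) := by
      funext i
      simp
    rw [h2] at h
    rw [h, Finset.mul_sum]
    simp only [Fin.val_zero, pow_zero, mul_one]
    rw [add_comm]
    congr 1
    apply Finset.sum_congr rfl
    intro j _
    rw [pow_succ]
    ring

lemma V_eq (n a : ℕ) (x : Fin (n + 1) → ℕ) : Nat.ofDigits 10 (pl (n + 1) a x) = V (n + 1) a x := by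
  unfold pl
  rw [ofDigits_ofFn (2 * (n + 1) + 1) (fun j => Y (n + 1) a x (min j (2 * (n + 1) - j)))]
  have h1 : 2 * (n + 1) + 1 = (n + 2) + (n + 1) := by ring
  rw [h1, Finset.sum_range_add, Finset.sum_range_succ]
  have h2 : ∑ j ∈ range (n + 1), Y (n + 1) a x (min j (2 * (n + 1) - j)) * 10 ^ j =
      ∑ j ∈ range (n + 1), Y (n + 1) a x j * 10 ^ j := by
    apply Finset.sum_congr rfl
    intro j hj
    rw [Finset.mem_range] at hj
    rw [min_eq_left (by omega)]
  have h3 : ∑ j ∈ range (n + 1), Y (n + 1) a x (min (n + 2 + j) (2 * (n + 1) - (n + 2 + j))) * 10 ^ (n + 2 + j) =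
      ∑ j ∈ range (n + 1), Y (n + 1) a x j * 10 ^ (2 * (n + 1) - j) := by
    rw [← Finset.sum_range_reflect]
    apply Finset.sum_congr rfl
    intro j hj
    rw [Finset.mem_range] at hj
    rw [min_eq_right (by omega)]
    congr 2
    · omega
    · omega
  rw [h2, h3, min_eq_left (by omega)]
  unfold V
  rw [Fin.sum_univ_castSucc, Finset.sum_range_succ', Finset.sum_range_succ']
  simp only [Y_zero, Fin.val_castSucc, Fin.val_last]
  rw [Y_succ _ _ _ n (by omega)]
  have h4 : ∑ i : Fin n, x (Fin.castSucc i) * wt (n + 1) i =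
      ∑ k ∈ range n, Y (n + 1) a x (k + 1) * 10 ^ (k + 1) +
        ∑ k ∈ range n, Y (n + 1) a x (k + 1) * 10 ^ (2 * (n + 1) - (k + 1)) := by
    rw [← Finset.sum_add_distrib, ← Fin.sum_univ_eq_sum_range
      (fun k => Y (n + 1) a x (k + 1) * 10 ^ (k + 1) + Y (n + 1) a x (k + 1) * 10 ^ (2 * (n + 1) - (k + 1)))]
    apply Finset.sum_congr rfl
    intro i _
    have hi : (i : ℕ) < n + 1 := by omega
    rw [Y_succ _ _ _ i hi]
    have hw : wt (n + 1) i = 10 ^ ((i : ℕ) + 1) + 10 ^ (2 * (n + 1) - ((i : ℕ) + 1)) := by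
      unfold wt
      rw [if_pos (by omega)]
    rw [hw, ← mul_add]
    rfl
  have h5 : wt (n + 1) n = 10 ^ (n + 1) := by
    unfold wt
    rw [if_neg (by omega)]
  rw [h4, h5]
  have h6 : x ⟨n, by omega⟩ = x (Fin.last n) := rfl
  rw [h6]
  simp only [pow_zero, Nat.sub_zero]
  ring

lemma Y_mem {D : Finset ℕ} {L a : ℕ} (ha : a ∈ D) {x : Fin L → ℕ} (hx : ∀ i, x i ∈ D) (k : ℕ) : Y L a x k ∈ D := by
  unfold Y
  split_ifs with h
  · exact hx _
  · exact ha

lemma pl_digits {D : Finset ℕ} (hD : ∀ a ∈ D, a < 10) {L a : ℕ} (ha : a ∈ D) (ha0 : a ≠ 0) {x : Fin L → ℕ}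
    (hx : ∀ i, x i ∈ D) : Nat.digits 10 (Nat.ofDigits 10 (pl L a x)) = pl L a x := by
  apply Nat.digits_ofDigits 10 (by norm_num)
  · intro l hl
    unfold pl at hl
    rw [List.mem_ofFn] at hl
    obtain ⟨j, rfl⟩ := hl
    exact hD _ (Y_mem ha hx _)
  · intro h
    rw [List.getLast_eq_getElem, pl_get]
    rw [pl_length]
    have : min (2 * L + 1 - 1) (2 * L - (2 * L + 1 - 1)) = 0 := by omega
    rw [this, Y_zero]
    exact ha0

lemma pl_reverse (L a : ℕ) (x : Fin L → ℕ) : (pl L a x).reverse = pl L a x := by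
  apply List.ext_getElem
  · simp
  · intro j h1 h2
    rw [List.getElem_reverse, pl_get, pl_get]
    rw [pl_length] at h2 ⊢
    congr 1
    omega

lemma V_mem {D : Finset ℕ} (hD : ∀ a ∈ D, a < 10) {n a : ℕ} (ha : a ∈ D) (ha0 : a ≠ 0) {x : Fin (n + 1) → ℕ}
    (hx : ∀ i, x i ∈ D) : V (n + 1) a x ∈ Pal D (n + 1) ∧ V (n + 1) a x % 10 = a := by
  have hd := pl_digits hD ha ha0 hx
  rw [V_eq] at hd
  have hlen : (Nat.digits 10 (V (n + 1) a x)).length = 2 * (n + 1) + 1 := by
    rw [hd, pl_length]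
  refine ⟨?_, ?_⟩
  · unfold Pal
    rw [Finset.mem_filter, Finset.mem_range]
    refine ⟨?_, ?_, ?_, ?_⟩
    · rw [← Nat.digits_length_le_iff (by norm_num : 1 < 10)]
      exact hlen.le
    · rw [← Nat.lt_digits_length_iff (by norm_num : 1 < 10)]
      omega
    · rw [hd, pl_reverse]
    · intro b hb
      rw [hd] at hb
      unfold pl at hb
      rw [List.mem_ofFn] at hb
      obtain ⟨j, rfl⟩ := hb
      exact Y_mem ha hx _
  · have h := Nat.getD_digits (V (n + 1) a x) 0 (by norm_num : 2 ≤ 10)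
    rw [pow_zero, Nat.div_one] at h
    rw [← h, hd, List.getD_eq_getElem _ _ (by rw [pl_length]; omega), pl_get]
    rw [Nat.zero_min, Y_zero]

lemma V_inj {D : Finset ℕ} (hD : ∀ a ∈ D, a < 10) {n a : ℕ} (ha : a ∈ D) (ha0 : a ≠ 0) {x y : Fin (n + 1) → ℕ}
    (hx : ∀ i, x i ∈ D) (hy : ∀ i, y i ∈ D) (h : V (n + 1) a x = V (n + 1) a y) : x = y := by
  have hd := pl_digits hD ha ha0 hx
  have he := pl_digits hD ha ha0 hy
  rw [V_eq] at hd he
  have hl : pl (n + 1) a x = pl (n + 1) a y := by rw [← hd, ← he, h]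
  funext i
  have hi : (i : ℕ) + 1 < (pl (n + 1) a x).length := by
    rw [pl_length]
    omega
  have hi' : (i : ℕ) + 1 < (pl (n + 1) a y).length := by
    rw [pl_length]
    omega
  have h1 := pl_get (n + 1) a x (i + 1) hi
  have h2 := pl_get (n + 1) a y (i + 1) hi'
  have h3 : (pl (n + 1) a x)[(i : ℕ) + 1] = (pl (n + 1) a y)[(i : ℕ) + 1] := by
    simp only [hl]
  rw [h1, h2] at h3
  rw [min_eq_left (by omega), Y_succ _ _ _ _ i.2, Y_succ _ _ _ _ i.2] at h3
  exact h3

lemma V_surj {D : Finset ℕ} {n a v : ℕ} (hv : v ∈ Pal D (n + 1)) (hva : v % 10 = a) :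
    a ∈ D.erase 0 ∧ ∃ x : Fin (n + 1) → ℕ, (∀ i, x i ∈ D) ∧ V (n + 1) a x = v := by
  unfold Pal at hv
  rw [Finset.mem_filter, Finset.mem_range] at hv
  obtain ⟨h1, h2, h3, h4⟩ := hv
  have hlen : (Nat.digits 10 v).length = 2 * (n + 1) + 1 := by
    rw [← Nat.digits_length_le_iff (by norm_num : 1 < 10)] at h1
    rw [← Nat.lt_digits_length_iff (by norm_num : 1 < 10)] at h2
    omega
  have hget : ∀ j (hj : j < (Nat.digits 10 v).length), (Nat.digits 10 v)[j] = v / 10 ^ j % 10 := by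
    intro j hj
    rw [← Nat.getD_digits v j (by norm_num : 2 ≤ 10), List.getD_eq_getElem _ _ hj]
  have hrev : ∀ j, j < 2 * (n + 1) + 1 → v / 10 ^ j % 10 = v / 10 ^ (2 * (n + 1) - j) % 10 := by
    intro j hj
    have hj1 : j < (Nat.digits 10 v).length := by omega
    have hj2 : 2 * (n + 1) - j < (Nat.digits 10 v).length := by omega
    have hj3 : j < (Nat.digits 10 v).reverse.length := by
      rw [List.length_reverse]
      exact hj1
    rw [← hget j hj1, ← hget _ hj2]
    have h5 : (Nat.digits 10 v)[j] = (Nat.digits 10 v).reverse[j] := by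
      simp only [h3]
    rw [h5, List.getElem_reverse]
    congr 1
    omega
  have hmem : ∀ j, j < 2 * (n + 1) + 1 → v / 10 ^ j % 10 ∈ D := by
    intro j hj
    have hj1 : j < (Nat.digits 10 v).length := by omega
    rw [← hget j hj1]
    exact h4 _ (List.getElem_mem hj1)
  have ha : a = v / 10 ^ 0 % 10 := by
    rw [pow_zero, Nat.div_one, hva]
  refine ⟨?_, fun i => v / 10 ^ ((i : ℕ) + 1) % 10, fun i => hmem _ (by omega), ?_⟩
  · rw [Finset.mem_erase]
    refine ⟨?_, ?_⟩
    · rw [ha, hrev 0 (by omega), Nat.sub_zero]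
      have h6 : 1 ≤ v / 10 ^ (2 * (n + 1)) := by
        rw [Nat.le_div_iff_mul_le (by positivity)]
        omega
      have h7 : v / 10 ^ (2 * (n + 1)) < 10 := by
        rw [Nat.div_lt_iff_lt_mul (by positivity)]
        calc v < 10 ^ (2 * (n + 1) + 1) := h1
          _ = 10 * 10 ^ (2 * (n + 1)) := by rw [pow_succ]; ring
      rw [Nat.mod_eq_of_lt h7]
      omega
    · rw [ha]
      exact hmem 0 (by omega)
  · rw [← V_eq]
    have hl : pl (n + 1) a (fun i => v / 10 ^ ((i : ℕ) + 1) % 10) = Nat.digits 10 v := by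
      apply List.ext_getElem
      · rw [pl_length, hlen]
      · intro j hj hj'
        rw [pl_get, hget]
        rw [pl_length] at hj
        have hY : ∀ k, k ≤ n + 1 → Y (n + 1) a (fun i : Fin (n + 1) => v / 10 ^ ((i : ℕ) + 1) % 10) k =
            v / 10 ^ k % 10 := by
          intro k hk
          rcases Nat.eq_zero_or_pos k with rfl | hk0
          · rw [Y_zero, ← ha]
          · obtain ⟨m, rfl⟩ : ∃ m, k = m + 1 := ⟨k - 1, by omega⟩
            rw [Y_succ _ _ _ m (by omega)]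
        rw [hY _ (by omega)]
        rcases le_total j (2 * (n + 1) - j) with h | h
        · rw [min_eq_left h]
        · rw [min_eq_right h, hrev j hj]
    rw [hl, Nat.ofDigits_digits]

/-- The palindromes with last digit `a` are parametrised by `D ^ L`. -/
theorem param {D : Finset ℕ} (hD : ∀ a ∈ D, a < 10) {L a : ℕ} (hL : 1 ≤ L) (ha : a ∈ D.erase 0)
    (P : ℕ → Prop) [DecidablePred P] :
    ((Pal D L).filter fun v => v % 10 = a ∧ P v).card =
      ((Fintype.piFinset fun _ : Fin L => D).filter fun x => P (V L a x)).card := by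
  obtain ⟨n, rfl⟩ : ∃ n, L = n + 1 := ⟨L - 1, by omega⟩
  have ha1 := Finset.mem_of_mem_erase ha
  have ha0 := Finset.ne_of_mem_erase ha
  symm
  apply Finset.card_nbij (V (n + 1) a)
  · intro x hx
    rw [Finset.mem_coe, Finset.mem_filter, Fintype.mem_piFinset] at hx
    have h := V_mem hD ha1 ha0 hx.1
    rw [Finset.mem_coe, Finset.mem_filter]
    exact ⟨h.1, h.2, hx.2⟩
  · intro x hx y hy h
    rw [Finset.mem_coe, Finset.mem_filter, Fintype.mem_piFinset] at hx hy
    exact V_inj hD ha1 ha0 hx.1 hy.1 h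
  · intro v hv
    rw [Finset.mem_coe, Finset.mem_filter] at hv
    obtain ⟨h1, h2, h3⟩ := hv
    obtain ⟨-, x, hx, hxv⟩ := V_surj h1 h2
    refine ⟨x, ?_, hxv⟩
    rw [Finset.mem_coe, Finset.mem_filter, Fintype.mem_piFinset]
    refine ⟨hx, ?_⟩
    rw [hxv]
    exact h3

theorem card : S_CARD := by
  intro D hD L hL
  have hmod : ∀ v ∈ Pal D L, v % 10 ∈ D.erase 0 := by
    intro v hv
    obtain ⟨n, rfl⟩ : ∃ n, L = n + 1 := ⟨L - 1, by omega⟩
    exact (V_surj hv rfl).1
  refine ⟨?_, hmod⟩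
  rw [Finset.card_eq_sum_card_fiberwise (f := fun v => v % 10) (t := D.erase 0) (fun v hv => hmod v hv)]
  have h : ∀ a ∈ D.erase 0, ((Pal D L).filter fun v => v % 10 = a).card = D.card ^ L := by
    intro a ha
    have h1 := param hD.lt hL ha (fun _ => True)
    simp only [and_true] at h1
    rw [h1, Finset.filter_true, Fintype.card_piFinset_const]
  rw [Finset.sum_congr rfl h, Finset.sum_const, smul_eq_mul]

end Pool.Agent.P8H89.PS
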