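import Pool.Agent.P8H89.PS.Card

/-!
# Project PS, package DEC: the palindromes in residue classes
-/

set_option autoImplicit false

namespace Pool.Agent.P8H89.PS

open Finset Pool.Agent.P8H18.PS

/-! ### distances to the integers -/

section dist

variable {d : ℕ} [NeZero d]

/-- `A m / d` is the distance of `m / d` to the integers -/
def A (m : ZMod d) : ℕ := m.valMinAbs.natAbs

omit [NeZero d] in
lemma A_eq_zero {m : ZMod d} : A m = 0 ↔ m = 0 := by
  unfold A
  rw [Int.natAbs_eq_zero, ZMod.valMinAbs_eq_zero]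

lemma A_le (m : ZMod d) (y : ℤ) (h : m = (y : ZMod d)) : A m ≤ y.natAbs := by
  unfold A
  apply ZMod.natAbs_min_of_le_div_two d
  · rw [ZMod.coe_valMinAbs, h]
  · exact ZMod.natAbs_valMinAbs_le m

lemma A_ten {m : ZMod d} (h : 20 * A m < d) : A (10 * m) = 10 * A m := by
  have h1 : (10 * m : ZMod d).valMinAbs = 10 * m.valMinAbs := by
    rw [ZMod.valMinAbs_spec]
    refine ⟨?_, ?_⟩
    · push_cast
      rfl
    · unfold A at h
      constructor <;> omega
  unfold A
  rw [h1, Int.natAbs_mul]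
  rfl

lemma A_iter {m : ZMod d} (j : ℕ) (h : ∀ i < j, 20 * A (10 ^ i * m) < d) : A (10 ^ j * m) = 10 ^ j * A m := by
  induction j with
  | zero => simp
  | succ j ih =>
    rw [pow_succ', mul_assoc, A_ten (h j (by omega)), ih (fun i hi => h i (by omega))]
    ring

lemma A_comb (m m' : ZMod d) : A (10 * m - m') ≤ 10 * A m + A m' := by
  have h := A_le (10 * m - m') (10 * m.valMinAbs - m'.valMinAbs) (by
    push_cast
    rfl)
  unfold A at h ⊢
  omega

omit [NeZero d] in
lemma A_99 {m : ZMod d} (h0 : m ≠ 0) (h : 99 * m = 0) : d ≤ 220 * A m := by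
  have h1 : ((99 * m.valMinAbs : ℤ) : ZMod d) = 0 := by
    push_cast
    exact h
  rw [ZMod.intCast_zmod_eq_zero_iff_dvd] at h1
  have h2 : m.valMinAbs ≠ 0 := by
    intro h3
    rw [ZMod.valMinAbs_eq_zero] at h3
    exact h0 h3
  have h3 : (d : ℤ) ≤ |99 * m.valMinAbs| := Int.le_of_dvd (by positivity) ((dvd_abs _ _).2 h1)
  rw [Int.abs_eq_natAbs, Int.natAbs_mul] at h3
  unfold A
  have h4 : d ≤ 99 * m.valMinAbs.natAbs := by exact_mod_cast h3
  omega

lemma norm_char (m : ZMod d) : ‖ZMod.stdAddChar m‖ = 1 := AddChar.norm_apply _ _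

lemma norm_one_add {m : ZMod d} (h : d ≤ 220 * A m) : ‖1 + ZMod.stdAddChar m‖ ≤ 2 - 1 / 12100 := by
  have hd : (0 : ℝ) < d := by exact_mod_cast Nat.pos_of_ne_zero (NeZero.ne d)
  set y : ℝ := (m.valMinAbs : ℝ) / d with hy
  have h1 : ZMod.stdAddChar m = Complex.exp (Complex.I * ((2 * Real.pi * y : ℝ) : ℂ)) := by
    conv_lhs => rw [← ZMod.coe_valMinAbs m]
    rw [ZMod.stdAddChar_coe]
    congr 1
    rw [hy]
    push_cast
    ring
  have h2 : ‖ZMod.stdAddChar m - 1‖ = 2 * |Real.sin (Real.pi * y)| := by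
    rw [h1, Complex.norm_exp_I_mul_ofReal_sub_one, Real.norm_eq_abs, abs_mul, abs_two]
    congr 3
    ring
  have hay : |y| = (A m : ℝ) / d := by
    rw [hy, abs_div, abs_of_pos hd]
    congr 1
    unfold A
    rw [← Int.cast_abs, Int.abs_eq_natAbs, Int.cast_natCast]
  have hA2 : (A m : ℝ) ≤ d / 2 := by
    have : A m ≤ d / 2 := ZMod.natAbs_valMinAbs_le m
    calc (A m : ℝ) ≤ ((d / 2 : ℕ) : ℝ) := by exact_mod_cast this
      _ ≤ (d : ℝ) / 2 := by exact_mod_cast Nat.cast_div_le
  have hy2 : |y| ≤ 1 / 2 := by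
    rw [hay, div_le_iff₀ hd]
    linarith
  have hy3 : 1 / 220 ≤ |y| := by
    rw [hay, le_div_iff₀ hd]
    have : (d : ℝ) ≤ 220 * A m := by exact_mod_cast h
    linarith
  have h3 : 2 / Real.pi * |Real.pi * y| ≤ |Real.sin (Real.pi * y)| := by
    apply Real.mul_abs_le_abs_sin
    rw [abs_mul, abs_of_pos Real.pi_pos]
    nlinarith [Real.pi_pos]
  have h4 : 2 / Real.pi * |Real.pi * y| = 2 * |y| := by
    rw [abs_mul, abs_of_pos Real.pi_pos]
    field_simp
  rw [h4] at h3
  have h5 : 1 / 55 ≤ ‖1 - ZMod.stdAddChar m‖ := by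
    rw [norm_sub_rev, h2]
    linarith
  have h6 := parallelogram_law_with_norm ℝ (1 : ℂ) (ZMod.stdAddChar m)
  rw [norm_char, norm_one] at h6
  by_contra hcon
  push Not at hcon
  nlinarith [norm_nonneg (1 + ZMod.stdAddChar m)]

lemma factor_le (D : Finset ℕ) (s : ZMod d) : ‖∑ b ∈ D, ZMod.stdAddChar ((b : ZMod d) * s)‖ ≤ D.card := by
  refine le_trans (norm_sum_le _ _) ?_
  simp only [norm_char, Finset.sum_const, nsmul_eq_mul, mul_one, le_refl]

lemma factor_lt {D : Finset ℕ} (hD : D.card ≤ 10) {a b : ℕ} (ha : a ∈ D) (hb : b ∈ D) (s : ZMod d)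
    (h : d ≤ 220 * A (((a : ZMod d) - (b : ZMod d)) * s)) :
    ‖∑ b ∈ D, ZMod.stdAddChar ((b : ZMod d) * s)‖ ≤ D.card * (1 - 1 / 121000) := by
  have hab : b ≠ a := by
    rintro rfl
    rw [sub_self, zero_mul, A_eq_zero.2 rfl] at h
    exact NeZero.ne d (by omega)
  have hb' : b ∈ D.erase a := Finset.mem_erase.2 ⟨hab, hb⟩
  rw [← Finset.add_sum_erase _ _ ha, ← Finset.add_sum_erase _ _ hb', ← add_assoc]
  have h1 : ZMod.stdAddChar ((a : ZMod d) * s) + ZMod.stdAddChar ((b : ZMod d) * s) =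
      ZMod.stdAddChar ((b : ZMod d) * s) * (1 + ZMod.stdAddChar (((a : ZMod d) - (b : ZMod d)) * s)) := by
    rw [mul_add, mul_one, ← AddChar.map_add_eq_mul, add_comm]
    congr 2
    ring
  have h2 : ‖ZMod.stdAddChar ((a : ZMod d) * s) + ZMod.stdAddChar ((b : ZMod d) * s)‖ ≤ 2 - 1 / 12100 := by
    rw [h1, norm_mul, norm_char, one_mul]
    exact norm_one_add h
  have h3 := factor_le ((D.erase a).erase b) s
  have h4 : (((D.erase a).erase b).card : ℝ) = D.card - 2 := by
    have h5 := Finset.card_erase_add_one ha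
    have h6 := Finset.card_erase_add_one hb'
    have h7 : ((D.erase a).erase b).card + 2 = D.card := by omega
    have h8 : ((((D.erase a).erase b).card + 2 : ℕ) : ℝ) = D.card := by rw [h7]
    push_cast at h8
    linarith
  rw [h4] at h3
  have h9 : (D.card : ℝ) ≤ 10 := by exact_mod_cast hD
  refine le_trans (norm_add_le _ _) ?_
  nlinarith

end dist

/-! ### one good index in every window -/

lemma unit_ten {d : ℕ} (hd : d.Coprime 10) : IsUnit (10 : ZMod d) := by
  have h := (ZMod.unitOfCoprime 10 hd.symm).isUnit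
  rw [ZMod.coe_unitOfCoprime] at h
  exact_mod_cast h

lemma case_one {d : ℕ} [NeZero d] (hd : d.Coprime 10) (L i0 : ℕ) (δ t : ZMod d) (h : 99 * δ * t ≠ 0)
    (hi : i0 + (Nat.log 10 d + 3) ≤ L) :
    ∃ i, i0 ≤ i ∧ i < i0 + (Nat.log 10 d + 3) ∧ d ≤ 220 * A (δ * (t * (10 ^ i + 10 ^ (2 * L - i)))) := by
  by_contra hcon
  push Not at hcon
  set l := Nat.log 10 d with hl
  have hkey : ∀ j ≤ l + 1, 20 * A (10 ^ j * (10 ^ (2 * L - i0 - l - 2) * (99 * δ * t))) < d := by
    intro j hj
    obtain ⟨i, hii⟩ : ∃ i, i + j = i0 + l + 1 := ⟨i0 + l + 1 - j, by omega⟩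
    have h1 := hcon i (by omega) (by omega)
    have h2 := hcon (i + 1) (by omega) (by omega)
    have h3 := A_comb (δ * (t * (10 ^ i + 10 ^ (2 * L - i)))) (δ * (t * (10 ^ (i + 1) + 10 ^ (2 * L - (i + 1)))))
    have h4 : 10 * (δ * (t * (10 ^ i + 10 ^ (2 * L - i)))) - δ * (t * (10 ^ (i + 1) + 10 ^ (2 * L - (i + 1)))) =
        10 ^ j * (10 ^ (2 * L - i0 - l - 2) * (99 * δ * t)) := by
      have h5 : 2 * L - i = (2 * L - (i + 1)) + 1 := by omega
      have h6 : 2 * L - (i + 1) = j + (2 * L - i0 - l - 2) := by omega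
      rw [h5, h6]
      ring
    rw [h4] at h3
    omega
  have h7 := A_iter (l + 1) (fun i hi => hkey i (by omega))
  have h8 := hkey (l + 1) le_rfl
  rw [h7] at h8
  have h9 : A (10 ^ (2 * L - i0 - l - 2) * (99 * δ * t)) ≠ 0 := by
    intro h0
    rw [A_eq_zero] at h0
    rw [((unit_ten hd).pow _).mul_right_eq_zero] at h0
    exact h h0
  have h10 : d < 10 ^ (l + 1) := Nat.lt_pow_succ_log_self (by norm_num) d
  have h11 : 1 ≤ A (10 ^ (2 * L - i0 - l - 2) * (99 * δ * t)) := Nat.one_le_iff_ne_zero.2 h9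
  nlinarith

lemma comb_zero {d : ℕ} (x y : ℤ) (t : ZMod d) (hx : (x : ZMod d) * t = 0) (hy : (y : ZMod d) * t = 0) :
    ((Int.gcd x y : ℕ) : ZMod d) * t = 0 := by
  have h := Int.gcd_eq_gcd_ab x y
  have h2 : ((Int.gcd x y : ℕ) : ZMod d) = ((x * Int.gcdA x y + y * Int.gcdB x y : ℤ) : ZMod d) := by
    rw [← h]
    push_cast
    rfl
  rw [h2]
  push_cast
  calc ((x : ZMod d) * (Int.gcdA x y : ZMod d) + (y : ZMod d) * (Int.gcdB x y : ZMod d)) * t =
      (Int.gcdA x y : ZMod d) * ((x : ZMod d) * t) + (Int.gcdB x y : ZMod d) * ((y : ZMod d) * t) := by ring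
    _ = 0 := by rw [hx, hy]; ring

lemma case_two {d : ℕ} [NeZero d] (hd : d.Coprime 10) {D : Finset ℕ} (hD : DigitSet D) (t : ZMod d) (ht : t ≠ 0)
    (h : ∀ a ∈ D, ∀ b ∈ D, 99 * ((a : ZMod d) - (b : ZMod d)) * t = 0) (L : ℕ) :
    ∃ a ∈ D, ∃ b ∈ D, ∀ i ≤ L, d ≤ 220 * A (((a : ZMod d) - (b : ZMod d)) * (t * (10 ^ i + 10 ^ (2 * L - i)))) := by
  obtain ⟨a, ha, b, hb, h3⟩ := hD.three
  obtain ⟨a', ha', b', hb', h7⟩ := hD.seven
  have la := hD.lt a ha
  have lb := hD.lt b hb
  have la' := hD.lt a' ha'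
  have lb' := hD.lt b' hb'
  -- `99 * 40 * t = 0`
  have h1 : ((Int.gcd ((a : ℤ) - b) ((a' : ℤ) - b') : ℕ) : ZMod d) * (99 * t) = 0 := by
    apply comb_zero
    · have := h a ha b hb
      push_cast
      rw [← this]
      ring
    · have := h a' ha' b' hb'
      push_cast
      rw [← this]
      ring
  have h2 : Int.gcd ((a : ℤ) - b) ((a' : ℤ) - b') ∣ 40 := by
    set g := Int.gcd ((a : ℤ) - b) ((a' : ℤ) - b') with hg
    have g1 : (g : ℤ) ∣ (a : ℤ) - b := Int.gcd_dvd_left ..
    have g2 : (g : ℤ) ∣ (a' : ℤ) - b' := Int.gcd_dvd_right ..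
    have g3 : ¬ 3 ∣ g := by
      intro h0
      apply h3
      have h4 : (3 : ℤ) ∣ (a : ℤ) - b := dvd_trans (by exact_mod_cast h0) g1
      have h5 : b ≡ a [MOD 3] := by
        rw [Nat.modEq_iff_dvd]
        exact_mod_cast h4
      exact h5.symm
    have g4 : ¬ 7 ∣ g := by
      intro h0
      apply h7
      have h4 : (7 : ℤ) ∣ (a' : ℤ) - b' := dvd_trans (by exact_mod_cast h0) g2
      have h5 : b' ≡ a' [MOD 7] := by
        rw [Nat.modEq_iff_dvd]
        exact_mod_cast h4
      exact h5.symm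
    have g5 : (a : ℤ) - b ≠ 0 := by
      intro h0
      apply h3
      have : a = b := by omega
      rw [this]
    have g6 : g ≤ 9 := by
      have h4 := Nat.le_of_dvd (Int.natAbs_pos.2 g5) (Int.natCast_dvd.1 g1)
      omega
    interval_cases g <;> omega
  obtain ⟨k, hk⟩ := h2
  have h4 : (40 : ZMod d) * (99 * t) = 0 := by
    have : (40 : ZMod d) = ((40 : ℕ) : ZMod d) := by norm_num
    rw [this, hk]
    push_cast
    rw [mul_comm _ (k : ZMod d), mul_assoc, h1, mul_zero]
  have h5 : (99 : ZMod d) * t = 0 := by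
    have hu : IsUnit (40 : ZMod d) := by
      have h6 : (40 : ZMod d) * 25 = 10 ^ 3 := by norm_num
      exact isUnit_of_mul_isUnit_left (h6 ▸ (unit_ten hd).pow 3)
    exact (hu.mul_right_eq_zero).1 h4
  -- powers of `100`
  have h6 : ∀ k : ℕ, t * 100 ^ k = t := by
    intro k
    induction k with
    | zero => simp
    | succ k ih =>
      rw [pow_succ, ← mul_assoc, ih]
      linear_combination h5
  have h8 : ∀ i ≤ L, t * (10 ^ i + 10 ^ (2 * L - i)) = 10 ^ i * (2 * t) := by
    intro i hi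
    have h9 : 2 * L - i = i + 2 * (L - i) := by omega
    rw [h9, pow_add, pow_mul]
    have h10 := h6 (L - i)
    have h11 : ((10 : ZMod d) ^ 2) = 100 := by norm_num
    rw [h11]
    linear_combination (10 : ZMod d) ^ i * h10
  refine ⟨a, ha, b, hb, fun i hi => ?_⟩
  apply A_99
  · rw [h8 i hi]
    intro h9
    have h10 : (10 : ZMod d) ^ i * (((a : ZMod d) - (b : ZMod d)) * (2 * t)) = 0 := by
      rw [← h9]
      ring
    rw [((unit_ten hd).pow _).mul_right_eq_zero] at h10
    have h11 : ((Int.gcd (((a : ℤ) - b) * 2) 99 : ℕ) : ZMod d) * t = 0 := by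
      apply comb_zero
      · push_cast
        rw [← h10]
        ring
      · exact_mod_cast h5
    have h12 : Int.gcd (((a : ℤ) - b) * 2) 99 = 1 := by
      have h13 : ¬ (3 : ℤ) ∣ (a : ℤ) - b := by
        intro h0
        apply h3
        have h5 : b ≡ a [MOD 3] := by
          rw [Nat.modEq_iff_dvd]
          exact_mod_cast h0
        exact h5.symm
      obtain ⟨e, he⟩ : ∃ e : ℤ, e = (a : ℤ) - b := ⟨_, rfl⟩
      rw [← he] at h13 ⊢
      have h14 : e ≤ 9 := by omega
      have h15 : -9 ≤ e := by omega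
      interval_cases e <;> first | (exfalso; revert h13; decide) | decide
    rw [h12, Nat.cast_one, one_mul] at h11
    exact ht h11
  · rw [h8 i hi]
    have : 99 * (((a : ZMod d) - (b : ZMod d)) * (10 ^ i * (2 * t))) = ((a : ZMod d) - (b : ZMod d)) * 10 ^ i * 2 * (99 * t) := by ring
    rw [this, h5, mul_zero]

lemma window {d : ℕ} [NeZero d] (hd : d.Coprime 10) {D : Finset ℕ} (hD : DigitSet D) (t : ZMod d) (ht : t ≠ 0)
    (L i0 : ℕ) (hi : i0 + (Nat.log 10 d + 3) ≤ L) :
    ∃ i, i0 ≤ i ∧ i < i0 + (Nat.log 10 d + 3) ∧ ∃ a ∈ D, ∃ b ∈ D,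
      d ≤ 220 * A (((a : ZMod d) - (b : ZMod d)) * (t * (10 ^ i + 10 ^ (2 * L - i)))) := by
  by_cases h : ∀ a ∈ D, ∀ b ∈ D, 99 * ((a : ZMod d) - (b : ZMod d)) * t = 0
  · obtain ⟨a, ha, b, hb, hab⟩ := case_two hd hD t ht h L
    exact ⟨i0, le_rfl, by omega, a, ha, b, hb, hab i0 (by omega)⟩
  · push Not at h
    obtain ⟨a, ha, b, hb, hab⟩ := h
    obtain ⟨i, h1, h2, h3⟩ := case_one hd L i0 _ t hab hi
    exact ⟨i, h1, h2, a, ha, b, hb, h3⟩

/-! ### products over blocks -/

lemma prod_blocks (G : ℕ → ℝ) (M q : ℝ) (hM : 0 ≤ M) (hq0 : 0 ≤ q) (n w : ℕ)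
    (h0 : ∀ i < n, 0 ≤ G i ∧ G i ≤ M)
    (hb : ∀ i0, i0 + w ≤ n → ∃ i, i0 ≤ i ∧ i < i0 + w ∧ G i ≤ M * q) :
    ∏ i ∈ range n, G i ≤ M ^ n * q ^ (n / w) := by
  have key : ∀ k : ℕ, k * w ≤ n → ∏ i ∈ range (k * w), G i ≤ M ^ (k * w) * q ^ k := by
    intro k
    induction k with
    | zero => intro _; simp
    | succ k ih =>
      intro hk
      have hkw : (k + 1) * w = k * w + w := by ring
      rw [hkw] at hk ⊢
      rw [Finset.prod_range_add]
      have h1 := ih (by omega)
      obtain ⟨i, hi1, hi2, hi3⟩ := hb (k * w) hk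
      have hj : i - k * w ∈ range w := by
        rw [Finset.mem_range]
        omega
      have h2 : ∏ x ∈ range w, G (k * w + x) ≤ M ^ w * q := by
        rw [← Finset.mul_prod_erase _ _ hj]
        have h3 : k * w + (i - k * w) = i := by omega
        rw [h3]
        have h4 : ∏ x ∈ (range w).erase (i - k * w), G (k * w + x) ≤ M ^ (w - 1) := by
          calc ∏ x ∈ (range w).erase (i - k * w), G (k * w + x) ≤ ∏ _x ∈ (range w).erase (i - k * w), M := by
                apply Finset.prod_le_prod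
                · intro x hx
                  have := Finset.mem_range.1 (Finset.mem_of_mem_erase hx)
                  exact (h0 _ (by omega)).1
                · intro x hx
                  have := Finset.mem_range.1 (Finset.mem_of_mem_erase hx)
                  exact (h0 _ (by omega)).2
            _ = M ^ (w - 1) := by
                rw [Finset.prod_const, Finset.card_erase_of_mem hj, Finset.card_range]
        have hw : w = (w - 1) + 1 := by omega
        calc G i * ∏ x ∈ (range w).erase (i - k * w), G (k * w + x) ≤ (M * q) * M ^ (w - 1) := by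
              apply mul_le_mul hi3 h4
              · apply Finset.prod_nonneg
                intro x hx
                have := Finset.mem_range.1 (Finset.mem_of_mem_erase hx)
                exact (h0 _ (by omega)).1
              · positivity
          _ = M ^ w * q := by
              conv_rhs => rw [hw, pow_succ]
              ring
      calc (∏ x ∈ range (k * w), G x) * ∏ x ∈ range w, G (k * w + x) ≤ (M ^ (k * w) * q ^ k) * (M ^ w * q) := by
            apply mul_le_mul h1 h2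
            · apply Finset.prod_nonneg
              intro x hx
              have := Finset.mem_range.1 hx
              exact (h0 _ (by omega)).1
            · positivity
        _ = M ^ (k * w + w) * q ^ (k + 1) := by
            rw [pow_add, pow_succ]
            ring
  have hn : n = n / w * w + n % w := by
    rw [mul_comm]
    exact (Nat.div_add_mod n w).symm
  have h1 := key (n / w) (Nat.div_mul_le_self n w)
  have h2 : ∏ x ∈ range (n % w), G (n / w * w + x) ≤ M ^ (n % w) := by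
    calc ∏ x ∈ range (n % w), G (n / w * w + x) ≤ ∏ _x ∈ range (n % w), M := by
          apply Finset.prod_le_prod
          · intro x hx
            have := Finset.mem_range.1 hx
            exact (h0 _ (by omega)).1
          · intro x hx
            have := Finset.mem_range.1 hx
            exact (h0 _ (by omega)).2
      _ = M ^ (n % w) := by rw [Finset.prod_const, Finset.card_range]
  have h3 : ∏ i ∈ range n, G i = (∏ i ∈ range (n / w * w), G i) * ∏ x ∈ range (n % w), G (n / w * w + x) := by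
    rw [← Finset.prod_range_add, ← hn]
  have h4 : M ^ n = M ^ (n / w * w) * M ^ (n % w) := by
    rw [← pow_add, ← hn]
  rw [h3, h4]
  calc (∏ i ∈ range (n / w * w), G i) * ∏ x ∈ range (n % w), G (n / w * w + x) ≤
      (M ^ (n / w * w) * q ^ (n / w)) * M ^ (n % w) := by
        apply mul_le_mul h1 h2
        · apply Finset.prod_nonneg
          intro x hx
          have := Finset.mem_range.1 hx
          exact (h0 _ (by omega)).1
        · positivity
    _ = M ^ (n / w * w) * M ^ (n % w) * q ^ (n / w) := by ring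

/-! ### the character sums -/

lemma map_sum_eq {d : ℕ} {ι : Type} (ψ : AddChar (ZMod d) ℂ) (s : Finset ι) (f : ι → ZMod d) :
    ψ (∑ i ∈ s, f i) = ∏ i ∈ s, ψ (f i) := by
  classical
  induction s using Finset.induction_on with
  | empty => simp
  | insert i s hi ih => rw [Finset.sum_insert hi, Finset.prod_insert hi, AddChar.map_add_eq_mul, ih]

lemma sum_char {d : ℕ} [NeZero d] (D : Finset ℕ) (L a r : ℕ) (t : ZMod d) :
    ∑ x ∈ Fintype.piFinset (fun _ : Fin L => D), ZMod.stdAddChar (t * ((V L a x : ZMod d) - (r : ZMod d))) =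
      ZMod.stdAddChar (t * ((a : ZMod d) * (10 ^ (2 * L) + 1) - (r : ZMod d))) *
        ∏ i : Fin L, ∑ b ∈ D, ZMod.stdAddChar ((b : ZMod d) * (t * (wt L i : ZMod d))) := by
  rw [Finset.prod_univ_sum, Finset.mul_sum]
  apply Finset.sum_congr rfl
  intro x _
  rw [← map_sum_eq, ← AddChar.map_add_eq_mul]
  congr 1
  unfold V
  push_cast
  rw [mul_sub, mul_sub, mul_add, Finset.mul_sum]
  have : ∀ i : Fin L, t * ((x i : ZMod d) * (wt L i : ZMod d)) = (x i : ZMod d) * (t * (wt L i : ZMod d)) := by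
    intro i
    ring
  rw [Finset.sum_congr rfl (fun i _ => this i)]
  ring

lemma char_bound {d : ℕ} [NeZero d] (hd : d.Coprime 10) {D : Finset ℕ} (hD : DigitSet D) (L : ℕ) (hL : 1 ≤ L)
    (a r : ℕ) (t : ZMod d) (ht : t ≠ 0) :
    ‖∑ x ∈ Fintype.piFinset (fun _ : Fin L => D), ZMod.stdAddChar (t * ((V L a x : ZMod d) - (r : ZMod d)))‖ ≤
      (D.card : ℝ) ^ L * (1 - 1 / 121000) ^ ((L - 1) / (Nat.log 10 d + 3)) := by
  have hcard : D.card ≤ 10 := by
    calc D.card ≤ (range 10).card := Finset.card_le_card (fun a ha => Finset.mem_range.2 (hD.lt a ha))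
      _ = 10 := by simp
  obtain ⟨n, rfl⟩ : ∃ n, L = n + 1 := ⟨L - 1, by omega⟩
  rw [sum_char, norm_mul, norm_char, one_mul, norm_prod, Fin.prod_univ_castSucc]
  set G : ℕ → ℝ := fun i => ‖∑ b ∈ D, ZMod.stdAddChar ((b : ZMod d) *
    (t * (10 ^ (i + 1) + 10 ^ (2 * (n + 1) - (i + 1)))))‖ with hG
  have h1 : ∏ i : Fin n, ‖∑ b ∈ D, ZMod.stdAddChar ((b : ZMod d) * (t * (wt (n + 1) (Fin.castSucc i) : ZMod d)))‖ =
      ∏ i ∈ range n, G i := by
    rw [← Fin.prod_univ_eq_prod_range]
    apply Finset.prod_congr rfl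
    intro i _
    rw [hG]
    have : wt (n + 1) (Fin.castSucc i) = 10 ^ ((i : ℕ) + 1) + 10 ^ (2 * (n + 1) - ((i : ℕ) + 1)) := by
      unfold wt
      rw [Fin.val_castSucc, if_pos (by omega)]
    rw [this]
    push_cast
    rfl
  rw [h1]
  have h2 := prod_blocks G D.card (1 - 1 / 121000) (by positivity) (by norm_num) n (Nat.log 10 d + 3)
    (fun i _ => ⟨norm_nonneg _, factor_le D _⟩) (by
      intro i0 hi0
      obtain ⟨i, hi1, hi2, a, ha, b, hb, hab⟩ := window hd hD t ht (n + 1) (i0 + 1) (by omega)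
      refine ⟨i - 1, by omega, by omega, ?_⟩
      have h3 : i - 1 + 1 = i := by omega
      rw [hG]
      simp only [h3]
      exact factor_lt hcard ha hb _ hab)
  have h4 := factor_le D (t * (wt (n + 1) (Fin.last n) : ZMod d))
  rw [Nat.add_sub_cancel, pow_succ]
  calc (∏ i ∈ range n, G i) * ‖∑ b ∈ D, ZMod.stdAddChar ((b : ZMod d) * (t * (wt (n + 1) (Fin.last n) : ZMod d)))‖ ≤
      ((D.card : ℝ) ^ n * (1 - 1 / 121000) ^ (n / (Nat.log 10 d + 3))) * D.card := by
        apply mul_le_mul h2 h4 (norm_nonneg _)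
        have : (0 : ℝ) ≤ 1 - 1 / 121000 := by norm_num
        positivity
    _ = (D.card : ℝ) ^ n * D.card * (1 - 1 / 121000) ^ (n / (Nat.log 10 d + 3)) := by ring

theorem dec : S_DEC := by
  intro D hD
  refine ⟨1 / 121000, by norm_num, by norm_num, ?_⟩
  intro L d hL hd a ha r
  have hd0 : d ≠ 0 := by
    rintro rfl
    revert hd
    decide
  have : NeZero d := ⟨hd0⟩
  have hdpos : (0 : ℝ) < d := by exact_mod_cast Nat.pos_of_ne_zero hd0
  rw [param hD.lt hL ha (fun v => v ≡ r [MOD d])]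
  set X := Fintype.piFinset (fun _ : Fin L => D) with hX
  set N := (X.filter fun x => V L a x ≡ r [MOD d]).card with hN
  set B := (D.card : ℝ) ^ L * (1 - 1 / 121000) ^ ((L - 1) / (Nat.log 10 d + 3)) with hB
  -- orthogonality
  have h1 : (d : ℂ) * N = ∑ t : ZMod d, ∑ x ∈ X, ZMod.stdAddChar (t * ((V L a x : ZMod d) - (r : ZMod d))) := by
    rw [Finset.sum_comm, hN, Finset.card_eq_sum_ones, Finset.sum_filter]
    push_cast
    rw [Finset.mul_sum]
    apply Finset.sum_congr rfl
    intro x _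
    rw [AddChar.sum_mulShift _ (ZMod.isPrimitive_stdAddChar d), ZMod.card]
    have h2 : ((V L a x : ZMod d) - (r : ZMod d) = 0) ↔ V L a x ≡ r [MOD d] := by
      rw [sub_eq_zero, ZMod.natCast_eq_natCast_iff]
    by_cases h3 : V L a x ≡ r [MOD d]
    · rw [if_pos h3, if_pos (h2.2 h3), mul_one]
    · rw [if_neg h3, if_neg (fun h => h3 (h2.1 h)), mul_zero]
      simp
  rw [← Finset.add_sum_erase _ _ (Finset.mem_univ (0 : ZMod d))] at h1
  have h4 : ∑ x ∈ X, ZMod.stdAddChar ((0 : ZMod d) * ((V L a x : ZMod d) - (r : ZMod d))) = ((D.card ^ L : ℕ) : ℂ) := by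
    simp only [zero_mul, AddChar.map_zero_eq_one, Finset.sum_const, nsmul_eq_mul, mul_one]
    rw [hX, Fintype.card_piFinset_const]
  rw [h4] at h1
  have hB0 : 0 ≤ B := by
    have : (0 : ℝ) ≤ 1 - 1 / 121000 := by norm_num
    positivity
  have h5 : ‖(d : ℂ) * N - ((D.card ^ L : ℕ) : ℂ)‖ ≤ d * B := by
    rw [h1, add_sub_cancel_left]
    refine le_trans (norm_sum_le _ _) ?_
    calc ∑ t ∈ (Finset.univ : Finset (ZMod d)).erase 0,
          ‖∑ x ∈ X, ZMod.stdAddChar (t * ((V L a x : ZMod d) - (r : ZMod d)))‖ ≤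
        ∑ _t ∈ (Finset.univ : Finset (ZMod d)).erase 0, B :=
          Finset.sum_le_sum fun t ht => char_bound hd hD L hL a r t (Finset.ne_of_mem_erase ht)
      _ ≤ ∑ _t ∈ (Finset.univ : Finset (ZMod d)), B :=
          Finset.sum_le_sum_of_subset_of_nonneg (Finset.erase_subset _ _) (fun _ _ _ => hB0)
      _ = d * B := by rw [Finset.sum_const, Finset.card_univ, ZMod.card, nsmul_eq_mul]
  have h6 : (d : ℂ) * N - ((D.card ^ L : ℕ) : ℂ) = (((d : ℝ) * N - (D.card : ℝ) ^ L : ℝ) : ℂ) := by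
    push_cast
    ring
  rw [h6, Complex.norm_real, Real.norm_eq_abs] at h5
  have h7 : (N : ℝ) - (D.card : ℝ) ^ L / d = ((d : ℝ) * N - (D.card : ℝ) ^ L) / d := by
    field_simp
  rw [h7, abs_div, abs_of_pos hdpos, div_le_iff₀ hdpos]
  linarith

end Pool.Agent.P8H89.PS
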